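import Pool.Agent.Helper81.PW.Defs

/-!
Project PW (MP_b8862a_ag), block B: the values of finitely many Weyl polynomials in at least two variables have
density zero.
-/

set_option linter.unusedSectionVars false

open Finset Nat

namespace PW

theorem Zero.mono3 {S T : Set ℕ} (h : Zero T) (hST : S ⊆ T) : Zero S := by
  classical
  intro K
  obtain ⟨X₀, h0⟩ := h K
  refine ⟨X₀, fun X hX => le_trans (Nat.mul_le_mul_left K ?_) (h0 X hX)⟩
  refine Finset.card_le_card fun n hn => ?_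
  obtain ⟨h1, h2⟩ := Finset.mem_filter.1 hn
  exact Finset.mem_filter.2 ⟨h1, hST h2⟩

theorem zero_iUnion3 {ι : Type*} [Fintype ι] (S : ι → Set ℕ) (h : ∀ i, Zero (S i)) : Zero (⋃ i, S i) := by
  classical
  intro K
  rcases isEmpty_or_nonempty ι with hι | hι
  · refine ⟨0, fun X _ => ?_⟩
    have h1 : cn (⋃ i, S i) X = 0 := by
      unfold cn
      rw [Finset.card_eq_zero, Finset.filter_eq_empty_iff]
      intro n _ hn
      obtain ⟨i, _⟩ := Set.mem_iUnion.1 hn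
      exact hι.elim i
    rw [h1]
    omega
  choose X₀ h0 using fun i => h i (K * Fintype.card ι)
  refine ⟨Finset.univ.sup X₀, fun X hX => ?_⟩
  have h1 : cn (⋃ i, S i) X ≤ ∑ i, cn (S i) X := by
    unfold cn
    refine le_trans (Finset.card_le_card (t := Finset.univ.biUnion fun i => (Finset.Icc 1 X).filter (· ∈ S i))
      fun n hn => ?_) Finset.card_biUnion_le
    obtain ⟨h2, h3⟩ := Finset.mem_filter.1 hn
    obtain ⟨i, hi⟩ := Set.mem_iUnion.1 h3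
    exact Finset.mem_biUnion.2 ⟨i, Finset.mem_univ _, Finset.mem_filter.2 ⟨h2, hi⟩⟩
  have h2 : Fintype.card ι * (K * ∑ i, cn (S i) X) ≤ Fintype.card ι * X := by
    calc Fintype.card ι * (K * ∑ i, cn (S i) X) = ∑ i, K * Fintype.card ι * cn (S i) X := by
          rw [← Finset.mul_sum]
          ring
      _ ≤ ∑ _i : ι, X := Finset.sum_le_sum fun i _ => h0 i X (le_trans (Finset.le_sup (Finset.mem_univ i)) hX)
      _ = Fintype.card ι * X := by rw [Finset.sum_const, Finset.card_univ, smul_eq_mul]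
  have h3 := Nat.le_of_mul_le_mul_left h2 Fintype.card_pos
  exact le_trans (Nat.mul_le_mul_left K h1) h3

/-- The number of the vectors with a small product. -/
theorem box_card (r Z : ℕ) (hZ : 1 ≤ Z) :
    (((Fintype.piFinset fun _ : Fin r => Finset.Icc 1 Z).filter fun b => (∏ j, b j) ^ (r + 1) ≤ Z ^ r).card : ℝ) ≤
      (Z : ℝ) ^ ((r : ℝ) / (r + 1)) * (1 + Real.log Z) ^ r := by
  classical
  have hZ0 : (0 : ℝ) < Z := by exact_mod_cast hZ
  rw [Finset.card_eq_sum_ones, Nat.cast_sum]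
  have h1 : ∀ b ∈ (Fintype.piFinset fun _ : Fin r => Finset.Icc 1 Z).filter (fun b => (∏ j, b j) ^ (r + 1) ≤ Z ^ r),
      ((1 : ℕ) : ℝ) ≤ (Z : ℝ) ^ ((r : ℝ) / (r + 1)) * ∏ j, ((b j : ℝ))⁻¹ := by
    intro b hb
    obtain ⟨h2, h3⟩ := Finset.mem_filter.1 hb
    have h4 : ∀ j, 1 ≤ b j := fun j => (Finset.mem_Icc.1 (Fintype.mem_piFinset.1 h2 j)).1
    have h5 : (0 : ℝ) < ∏ j, (b j : ℝ) := Finset.prod_pos fun j _ => by exact_mod_cast h4 j
    have h6 : (∏ j, (b j : ℝ)) ≤ (Z : ℝ) ^ ((r : ℝ) / (r + 1)) := by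
      have h7 : (∏ j, (b j : ℝ)) ^ (r + 1) ≤ (Z : ℝ) ^ r := by exact_mod_cast h3
      have h8 : (∏ j, (b j : ℝ)) = ((∏ j, (b j : ℝ)) ^ (r + 1)) ^ ((1 : ℝ) / ((r + 1 : ℕ) : ℝ)) := by
        rw [one_div, Real.pow_rpow_inv_natCast h5.le (by omega)]
      have h9 : (Z : ℝ) ^ ((r : ℝ) / (r + 1)) = ((Z : ℝ) ^ r) ^ ((1 : ℝ) / ((r + 1 : ℕ) : ℝ)) := by
        rw [← Real.rpow_natCast, ← Real.rpow_mul hZ0.le]
        congr 1
        push_cast
        ring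
      rw [h8, h9]
      exact Real.rpow_le_rpow (by positivity) h7 (by positivity)
    rw [Finset.prod_inv_distrib, Nat.cast_one, ← div_eq_mul_inv, le_div_iff₀ h5, one_mul]
    exact h6
  refine (Finset.sum_le_sum h1).trans ?_
  have h2 : ∑ b ∈ (Fintype.piFinset fun _ : Fin r => Finset.Icc 1 Z).filter
      (fun b => (∏ j, b j) ^ (r + 1) ≤ Z ^ r), (Z : ℝ) ^ ((r : ℝ) / (r + 1)) * ∏ j, ((b j : ℝ))⁻¹ ≤
      ∑ b ∈ (Fintype.piFinset fun _ : Fin r => Finset.Icc 1 Z), (Z : ℝ) ^ ((r : ℝ) / (r + 1)) * ∏ j, ((b j : ℝ))⁻¹ := by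
    refine Finset.sum_le_sum_of_subset_of_nonneg (Finset.filter_subset _ _) fun b _ _ => by positivity
  refine h2.trans ?_
  rw [← Finset.mul_sum, Finset.sum_prod_piFinset (Finset.Icc 1 Z) fun (_ : Fin r) (j : ℕ) => ((j : ℝ))⁻¹]
  rw [Finset.prod_const, Finset.card_univ, Fintype.card_fin]
  refine mul_le_mul_of_nonneg_left ?_ (by positivity)
  refine pow_le_pow_left₀ (Finset.sum_nonneg fun j _ => by positivity) ?_ r
  have h3 := harmonic_le_one_add_log Z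
  rw [harmonic_eq_sum_Icc] at h3
  push_cast at h3
  exact h3

/-- The asymptotics. -/
theorem zero_aux (r Q K : ℕ) (hr : 1 ≤ r) : ∃ X₀ : ℕ, ∀ X : ℕ, X₀ ≤ X →
    (K : ℝ) * (((Q * X : ℕ) : ℝ) ^ ((r : ℝ) / (r + 1)) * (1 + Real.log ((Q * X : ℕ) : ℝ)) ^ r) ≤ X := by
  have hr0 : (1 : ℝ) ≤ r := by exact_mod_cast hr
  set δ : ℝ := 1 / (2 * r * (r + 1)) with hδ
  have hδ0 : 0 < δ := by positivity
  set c : ℝ := (1 + 1 / δ) ^ r with hc
  have hc0 : 0 < c := by positivity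
  set T : ℝ := K * c * (Q + 1) + 1 with hT
  have hT1 : 1 ≤ T := by
    rw [hT]
    have : 0 ≤ (K : ℝ) * c * (Q + 1) := by positivity
    linarith
  refine ⟨⌈T ^ (2 * (r + 1))⌉₊ + 1, fun X hX => ?_⟩
  have hX1 : T ^ (2 * (r + 1)) ≤ X := by
    refine (Nat.le_ceil _).trans ?_
    exact_mod_cast (by omega : ⌈T ^ (2 * (r + 1))⌉₊ ≤ X)
  have hXge : (1 : ℝ) ≤ X := by
    have h1 : 1 ≤ X := by omega
    exact_mod_cast h1
  rcases Nat.eq_zero_or_pos Q with hQ | hQ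
  · subst hQ
    rw [zero_mul, Nat.cast_zero, Real.zero_rpow (by positivity), zero_mul, mul_zero]
    linarith
  have hQ1 : (1 : ℝ) ≤ Q := by exact_mod_cast hQ
  set Z : ℝ := ((Q * X : ℕ) : ℝ) with hZ
  have hZe : Z = Q * X := by rw [hZ]; push_cast; ring
  have hZ1 : 1 ≤ Z := by
    rw [hZe]
    nlinarith
  have hZ0 : 0 < Z := by linarith
  have h1 : 1 + Real.log Z ≤ (1 + 1 / δ) * Z ^ δ := by
    have h2 := Real.log_le_rpow_div hZ0.le hδ0
    have h3 : 1 ≤ Z ^ δ := Real.one_le_rpow hZ1 hδ0.le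
    calc 1 + Real.log Z ≤ Z ^ δ + Z ^ δ / δ := add_le_add h3 h2
      _ = (1 + 1 / δ) * Z ^ δ := by ring
  have h0 : 0 ≤ 1 + Real.log Z := by
    have := Real.log_nonneg hZ1
    linarith
  have h2 : (1 + Real.log Z) ^ r ≤ c * (Z ^ δ) ^ r := by
    calc (1 + Real.log Z) ^ r ≤ ((1 + 1 / δ) * Z ^ δ) ^ r := pow_le_pow_left₀ h0 h1 r
      _ = c * (Z ^ δ) ^ r := by rw [mul_pow]
  have h3 : Z ^ ((r : ℝ) / (r + 1)) * (Z ^ δ) ^ r = Z ^ (1 - 1 / (2 * ((r : ℝ) + 1))) := by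
    rw [← Real.rpow_natCast (Z ^ δ) r, ← Real.rpow_mul hZ0.le, ← Real.rpow_add hZ0]
    congr 1
    rw [hδ]
    field_simp
    ring
  have h4 : Z ^ (1 - 1 / (2 * ((r : ℝ) + 1))) ≤ Q * (X : ℝ) ^ (1 - 1 / (2 * ((r : ℝ) + 1))) := by
    have h5 : 1 / (2 * ((r : ℝ) + 1)) ≤ 1 := by
      rw [div_le_one (by positivity)]
      linarith
    rw [hZe, Real.mul_rpow (by positivity) (by positivity)]
    refine mul_le_mul_of_nonneg_right ?_ (by positivity)
    calc (Q : ℝ) ^ (1 - 1 / (2 * ((r : ℝ) + 1))) ≤ (Q : ℝ) ^ (1 : ℝ) :=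
          Real.rpow_le_rpow_of_exponent_le hQ1 (by
            have : 0 ≤ 1 / (2 * ((r : ℝ) + 1)) := by positivity
            linarith)
      _ = Q := Real.rpow_one _
  have h5 : T ≤ (X : ℝ) ^ (1 / (2 * ((r : ℝ) + 1))) := by
    have h6 : T = (T ^ (2 * (r + 1))) ^ ((1 : ℝ) / ((2 * (r + 1) : ℕ) : ℝ)) := by
      rw [one_div, Real.pow_rpow_inv_natCast (by linarith) (by omega)]
    rw [h6]
    have h7 : (1 / (2 * ((r : ℝ) + 1))) = ((1 : ℝ) / ((2 * (r + 1) : ℕ) : ℝ)) := by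
      push_cast
      ring
    rw [h7]
    exact Real.rpow_le_rpow (by positivity) hX1 (by positivity)
  calc (K : ℝ) * (Z ^ ((r : ℝ) / (r + 1)) * (1 + Real.log Z) ^ r)
      ≤ K * (Z ^ ((r : ℝ) / (r + 1)) * (c * (Z ^ δ) ^ r)) := by gcongr
    _ = K * c * Z ^ (1 - 1 / (2 * ((r : ℝ) + 1))) := by
        rw [← h3]
        ring
    _ ≤ K * c * (Q * (X : ℝ) ^ (1 - 1 / (2 * ((r : ℝ) + 1)))) := by gcongr
    _ = (K * c * Q) * (X : ℝ) ^ (1 - 1 / (2 * ((r : ℝ) + 1))) := by ring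
    _ ≤ T * (X : ℝ) ^ (1 - 1 / (2 * ((r : ℝ) + 1))) := by
        refine mul_le_mul_of_nonneg_right ?_ (by positivity)
        rw [hT]
        have : 0 ≤ (K : ℝ) * c := by positivity
        nlinarith
    _ ≤ (X : ℝ) ^ (1 / (2 * ((r : ℝ) + 1))) * (X : ℝ) ^ (1 - 1 / (2 * ((r : ℝ) + 1))) :=
        mul_le_mul_of_nonneg_right h5 (by positivity)
    _ = X := by
        rw [← Real.rpow_add (by linarith)]
        norm_num

/-- The product formula bounds the numbers `b`. -/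
theorem prod_bound {r N : ℕ} (f : Fin N → Fin r → ℕ) (b : Fin r → ℕ) (s : Fin r → Fin N) (hf : ∀ a, 0 < ∑ j, f a j)
    (hb : ∀ j, 0 < b j) (hs : Function.Injective s) (hsf : ∀ j i, f (s j) i = if i = j then 1 else 0)
    (hn : ∀ j, ∃ a, (∀ i, s i ≠ a) ∧ 1 ≤ f a j) :
    (∏ j, b j) ^ (r + 1) ≤ (∏ a, ∑ j, f a j * b j) ^ r ∧ ∀ j, b j ≤ ∏ a, ∑ j, f a j * b j := by
  classical
  set G : Fin N → ℕ := fun a => ∑ j, f a j * b j with hG
  have hG1 : ∀ a, 1 ≤ G a := by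
    intro a
    obtain ⟨j, _, hj⟩ := Finset.exists_ne_zero_of_sum_ne_zero (hf a).ne'
    have h1 : f a j * b j ≤ G a := Finset.single_le_sum (f := fun j => f a j * b j) (fun i _ => Nat.zero_le _)
      (Finset.mem_univ j)
    have h2 : 0 < f a j * b j := Nat.mul_pos (Nat.pos_of_ne_zero hj) (hb j)
    omega
  have hGs : ∀ j, G (s j) = b j := by
    intro j
    rw [hG]
    simp only [hsf, ite_mul, one_mul, zero_mul, Finset.sum_ite_eq', Finset.mem_univ, if_true]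
  have hle : ∀ a, G a ≤ ∏ a, G a := fun a => Finset.single_le_prod' (fun i _ => hG1 i) (Finset.mem_univ a)
  refine ⟨?_, fun j => hGs j ▸ hle (s j)⟩
  have h1 : ∀ i, (∏ j, b j) * b i ≤ ∏ a, G a := by
    intro i
    obtain ⟨a, ha, hfa⟩ := hn i
    have h2 : b i ≤ G a := by
      have h3 : f a i * b i ≤ G a := Finset.single_le_sum (f := fun j => f a j * b j) (fun i _ => Nat.zero_le _)
        (Finset.mem_univ i)
      nlinarith
    have h4 : a ∉ Finset.univ.image s := by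
      intro h
      obtain ⟨j, _, hj⟩ := Finset.mem_image.1 h
      exact ha j hj
    calc (∏ j, b j) * b i ≤ (∏ j, b j) * G a := Nat.mul_le_mul_left _ h2
      _ = (∏ a ∈ Finset.univ.image s, G a) * G a := by
          rw [Finset.prod_image fun x _ y _ h => hs h]
          simp only [hGs]
      _ = ∏ a ∈ insert a (Finset.univ.image s), G a := by
          rw [Finset.prod_insert h4, mul_comm]
      _ ≤ ∏ a, G a := Finset.prod_le_prod_of_subset_of_one_le' (Finset.subset_univ _) fun i _ _ => hG1 i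
  calc (∏ j, b j) ^ (r + 1) = ∏ i : Fin r, ((∏ j, b j) * b i) := by
        rw [Finset.prod_mul_distrib, Finset.prod_const, Finset.card_univ, Fintype.card_fin, pow_succ]
    _ ≤ ∏ _i : Fin r, ∏ a, G a := Finset.prod_le_prod' fun i _ => h1 i
    _ = (∏ a, G a) ^ r := by rw [Finset.prod_const, Finset.card_univ, Fintype.card_fin]

/-- The values of one Weyl polynomial. -/
theorem zero_one {r N : ℕ} (f : Fin N → Fin r → ℕ) (hr : 1 ≤ r) : Zero {n | ∃ (b : Fin r → ℕ) (s : Fin r → Fin N),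
    (∀ a, 0 < ∑ j, f a j) ∧ (∀ j, 0 < b j) ∧ Function.Injective s ∧ (∀ j i, f (s j) i = if i = j then 1 else 0) ∧
    (∀ j, ∃ a, (∀ i, s i ≠ a) ∧ 1 ≤ f a j) ∧ n * ∏ a, ∑ j, f a j = ∏ a, ∑ j, f a j * b j} := by
  classical
  intro K
  set Q : ℕ := ∏ a, ∑ j, f a j with hQ
  obtain ⟨X₀, h0⟩ := zero_aux r Q K hr
  refine ⟨X₀, fun X hX => ?_⟩
  have h1 := h0 X hX
  rcases Nat.eq_zero_or_pos (Q * X) with hZ | hZ
  · have h2 : cn {n | ∃ (b : Fin r → ℕ) (s : Fin r → Fin N),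
        (∀ a, 0 < ∑ j, f a j) ∧ (∀ j, 0 < b j) ∧ Function.Injective s ∧ (∀ j i, f (s j) i = if i = j then 1 else 0) ∧
        (∀ j, ∃ a, (∀ i, s i ≠ a) ∧ 1 ≤ f a j) ∧ n * Q = ∏ a, ∑ j, f a j * b j} X = 0 := by
      unfold cn
      rw [Finset.card_eq_zero, Finset.filter_eq_empty_iff]
      rintro n hn ⟨b, s, hf, hb, hs, hsf, hnn, he⟩
      obtain ⟨h3, h4⟩ := Finset.mem_Icc.1 hn
      have h5 : 0 < Q := Finset.prod_pos fun a _ => hf a
      have h6 : 0 < Q * X := Nat.mul_pos h5 (by omega)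
      omega
    rw [h2]
    omega
  have h2 : cn {n | ∃ (b : Fin r → ℕ) (s : Fin r → Fin N),
      (∀ a, 0 < ∑ j, f a j) ∧ (∀ j, 0 < b j) ∧ Function.Injective s ∧ (∀ j i, f (s j) i = if i = j then 1 else 0) ∧
      (∀ j, ∃ a, (∀ i, s i ≠ a) ∧ 1 ≤ f a j) ∧ n * Q = ∏ a, ∑ j, f a j * b j} X ≤
      ((Fintype.piFinset fun _ : Fin r => Finset.Icc 1 (Q * X)).filter
        fun b => (∏ j, b j) ^ (r + 1) ≤ (Q * X) ^ r).card := by
    unfold cn
    refine Finset.card_le_card_of_forall_subsingleton (fun n b => n * Q = ∏ a, ∑ j, f a j * b j) ?_ ?_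
    · intro n hn
      obtain ⟨hn1, b, s, hf, hb, hs, hsf, hnn, he⟩ := Finset.mem_filter.1 hn
      obtain ⟨h3, h4⟩ := prod_bound f b s hf hb hs hsf hnn
      have h5 : n ≤ X := (Finset.mem_Icc.1 hn1).2
      have h6 : ∏ a, ∑ j, f a j * b j ≤ Q * X := by
        rw [← he, mul_comm]
        exact Nat.mul_le_mul_left Q h5
      refine ⟨b, Finset.mem_filter.2 ⟨Fintype.mem_piFinset.2 fun j => Finset.mem_Icc.2 ⟨hb j, (h4 j).trans h6⟩,
        h3.trans (Nat.pow_le_pow_left h6 r)⟩, he⟩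
    · rintro b _ n ⟨_, hn⟩ m ⟨_, hm⟩
      have h3 : 0 < Q := Nat.pos_of_mul_pos_right hZ |> fun h => h
      exact Nat.eq_of_mul_eq_mul_right h3 (hn.trans hm.symm)
  have h3 := box_card r (Q * X) hZ
  have h4 : ((K * cn {n | ∃ (b : Fin r → ℕ) (s : Fin r → Fin N),
      (∀ a, 0 < ∑ j, f a j) ∧ (∀ j, 0 < b j) ∧ Function.Injective s ∧ (∀ j i, f (s j) i = if i = j then 1 else 0) ∧
      (∀ j, ∃ a, (∀ i, s i ≠ a) ∧ 1 ≤ f a j) ∧ n * Q = ∏ a, ∑ j, f a j * b j} X : ℕ) : ℝ) ≤ X := by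
    rw [Nat.cast_mul]
    refine le_trans ?_ h1
    refine mul_le_mul_of_nonneg_left ?_ (Nat.cast_nonneg K)
    exact le_trans (by exact_mod_cast h2) h3
  exact_mod_cast h4

/-- Block PW-B. -/
theorem dt_zero (M : ℕ) : Zero {n | Dt M n} := by
  classical
  refine Zero.mono3 (zero_iUnion3 (ι := Σ (r : Fin (M + 1)) (N : Fin (M + 1)), (Fin N → Fin r → Fin (4 * M + 1)))
    (fun t => {n | 1 ≤ (t.1 : ℕ) ∧ ∃ (b : Fin t.1 → ℕ) (s : Fin t.1 → Fin t.2.1),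
      (∀ a, 0 < ∑ j, (t.2.2 a j : ℕ)) ∧ (∀ j, 0 < b j) ∧ Function.Injective s ∧
      (∀ j i, (t.2.2 (s j) i : ℕ) = if i = j then 1 else 0) ∧
      (∀ j, ∃ a, (∀ i, s i ≠ a) ∧ 1 ≤ (t.2.2 a j : ℕ)) ∧
      n * ∏ a, ∑ j, (t.2.2 a j : ℕ) = ∏ a, ∑ j, (t.2.2 a j : ℕ) * b j}) fun t => ?_) ?_
  · rcases Nat.eq_zero_or_pos (t.1 : ℕ) with h | h
    · refine Zero.mono3 (T := ∅) (fun K => ⟨0, fun X _ => ?_⟩) fun n hn => ?_
      · unfold cn
        simp
      · obtain ⟨h1, _⟩ := hn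
        omega
    · exact Zero.mono3 (zero_one (fun a j => (t.2.2 a j : ℕ)) h) fun n hn => hn.2
  · rintro n ⟨r, N, f, b, s, h2r, hrM, hNM, hf4, hf, hb, hs, hsf, hnn, he⟩
    refine Set.mem_iUnion.2 ⟨⟨⟨r, by omega⟩, ⟨N, by omega⟩, fun a j => ⟨f a j, by
      have := hf4 a j
      omega⟩⟩, ?_⟩
    exact ⟨by
      show 1 ≤ r
      omega, b, s, hf, hb, hs, hsf, hnn, he⟩

end PW
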