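import Pool.Agent.Helper81.PW.Defs


/-!
Project PW (MP_b8862a_ag), block A: the integers without large prime factors.
-/

set_option linter.unusedSectionVars false

open Finset Nat

namespace PW

/-- The product of the prime powers. -/
theorem log_fac {P y : ℕ} (_hP : P ≠ 0) (hy : ∀ p : ℕ, p.Prime → p ∣ P → p ≤ y) :
    Real.log P = ∑ p ∈ Nat.primesLE y, (P.factorization p : ℝ) * Real.log p := by
  rw [Real.log_nat_eq_sum_factorization, Finsupp.sum]
  refine Finset.sum_subset (fun p hp => ?_) (fun p _ hp => ?_)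
  · have h1 := Nat.prime_of_mem_primeFactors (n := P) (by simpa using hp)
    have h2 : p ∣ P := Nat.dvd_of_mem_primeFactors (by simpa using hp)
    exact Nat.mem_primesLE.2 ⟨hy p h1 h2, h1⟩
  · rw [Finsupp.notMem_support_iff.1 hp]
    simp

/-- Mertens' theorem. -/
theorem mertens (y : ℕ) (hy : 1 ≤ y) :
    ∑ p ∈ Nat.primesLE y, Real.log p / p ≤ Real.log y + Real.log 4 := by
  have hy0 : (0 : ℝ) < y := by exact_mod_cast hy
  have h1 : Real.log (y ! : ℕ) = ∑ p ∈ Nat.primesLE y, ((y !).factorization p : ℝ) * Real.log p :=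
    log_fac (Nat.factorial_ne_zero y) fun p hp hd => (hp.dvd_factorial).1 hd
  have h2 : ∀ p ∈ Nat.primesLE y, ((y : ℝ) / p - 1) * Real.log p ≤ ((y !).factorization p : ℝ) * Real.log p := by
    intro p hp
    obtain ⟨hpy, hpp⟩ := Nat.mem_primesLE.1 hp
    have hp0 : (0 : ℝ) < p := by exact_mod_cast hpp.pos
    have h3 : 0 ≤ Real.log p := Real.log_nonneg (by exact_mod_cast hpp.one_le)
    refine mul_le_mul_of_nonneg_right ?_ h3
    have h4 : y / p ≤ (y !).factorization p := by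
      have h5 : (p * (y / p)) ! ∣ y ! := Nat.factorial_dvd_factorial (Nat.mul_div_le y p)
      have h6 := (Nat.factorization_le_iff_dvd (Nat.factorial_ne_zero _) (Nat.factorial_ne_zero _)).2 h5 p
      rw [Nat.factorization_factorial_mul hpp] at h6
      omega
    have h7 : (y : ℝ) / p - 1 ≤ ((y / p : ℕ) : ℝ) := by
      rw [sub_le_iff_le_add, div_le_iff₀ hp0]
      have h8 : y < p * (y / p + 1) := by
        have := Nat.lt_mul_div_succ y hpp.pos
        exact this
      have h9 : (y : ℝ) < p * ((y / p : ℕ) + 1) := by exact_mod_cast h8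
      linarith
    exact h7.trans (by exact_mod_cast h4)
  have h3 : ∑ p ∈ Nat.primesLE y, ((y : ℝ) / p - 1) * Real.log p ≤ y * Real.log y := by
    refine (Finset.sum_le_sum h2).trans ?_
    rw [← h1]
    have h4 : ((y ! : ℕ) : ℝ) ≤ (y : ℝ) ^ y := by exact_mod_cast Nat.factorial_le_pow y
    calc Real.log (y ! : ℕ) ≤ Real.log ((y : ℝ) ^ y) := Real.log_le_log (by exact_mod_cast Nat.factorial_pos y) h4
      _ = y * Real.log y := Real.log_pow _ _
  have h4 : ∑ p ∈ Nat.primesLE y, Real.log p ≤ Real.log 4 * y := by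
    rw [← Chebyshev.theta_eq_sum_primesLE_log]
    exact Chebyshev.theta_le_log4_mul_x hy0.le
  have h5 : ∑ p ∈ Nat.primesLE y, ((y : ℝ) / p - 1) * Real.log p =
      y * ∑ p ∈ Nat.primesLE y, Real.log p / p - ∑ p ∈ Nat.primesLE y, Real.log p := by
    rw [Finset.mul_sum, ← Finset.sum_sub_distrib]
    refine Finset.sum_congr rfl fun p _ => ?_
    ring
  have h6 : y * ∑ p ∈ Nat.primesLE y, Real.log p / p ≤ y * (Real.log y + Real.log 4) := by
    rw [h5] at h3
    linarith
  exact le_of_mul_le_mul_left h6 hy0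

theorem mertens' (y : ℕ) (hy : 1 ≤ y) :
    ∑ p ∈ Nat.primesLE y, Real.log p / (p - 1 : ℝ) ≤ 1 + 3 / 2 * (Real.log y + Real.log 4) := by
  have h1 : ∀ p ∈ Nat.primesLE y, Real.log p / (p - 1 : ℝ) ≤ 3 / 2 * (Real.log p / p) + if p = 2 then 1 else 0 := by
    intro p hp
    obtain ⟨hpy, hpp⟩ := Nat.mem_primesLE.1 hp
    split_ifs with h2
    · subst h2
      have h3 : Real.log 2 ≤ 0.6931471808 := Real.log_two_lt_d9.le
      norm_num at h3 ⊢
      linarith
    · have h3 : 3 ≤ p := by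
        have := hpp.two_le
        omega
      have h4 : (3 : ℝ) ≤ p := by exact_mod_cast h3
      have h5 : 0 ≤ Real.log p := Real.log_nonneg (by linarith)
      rw [add_zero, div_le_iff₀ (by linarith)]
      have h6 : 3 / 2 * (Real.log p / p) * (p - 1 : ℝ) = Real.log p * (3 / 2 * ((p - 1) / p)) := by ring
      rw [h6]
      have h7 : (1 : ℝ) ≤ 3 / 2 * ((p - 1) / p) := by
        rw [← mul_div_assoc, le_div_iff₀ (by linarith)]
        linarith
      nlinarith
  refine (Finset.sum_le_sum h1).trans ?_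
  rw [Finset.sum_add_distrib, ← Finset.mul_sum]
  have h2 : (∑ p ∈ Nat.primesLE y, if p = 2 then (1 : ℝ) else 0) ≤ 1 := by
    rw [Finset.sum_ite_eq']
    split_ifs <;> norm_num
  have h3 := mertens y hy
  linarith

/-- A set of numbers `≤ X` all of whose prime factors are `≤ y`. -/
theorem sum_log {X y : ℕ} (S : Finset ℕ) (hS : ∀ n ∈ S, 1 ≤ n ∧ n ≤ X) (hy : ∀ n ∈ S, ∀ p : ℕ, p.Prime → p ∣ n → p ≤ y)
    (hy1 : 1 ≤ y) : ∑ n ∈ S, Real.log n ≤ X * (1 + 3 / 2 * (Real.log y + Real.log 4)) := by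
  have h0 : ∏ n ∈ S, n ≠ 0 := Finset.prod_ne_zero_iff.2 fun n hn => by
    have := (hS n hn).1
    omega
  have h1 : ∑ n ∈ S, Real.log n = Real.log (∏ n ∈ S, n : ℕ) := by
    rw [Nat.cast_prod, Real.log_prod]
    intro n hn
    have := (hS n hn).1
    exact_mod_cast (by omega : n ≠ 0)
  have h2 : (∏ n ∈ S, n) ∣ X ! := by
    have h3 : S ⊆ Finset.Ico 1 (X + 1) := fun n hn => Finset.mem_Ico.2 (by
      have := hS n hn
      omega)
    have h4 := Finset.prod_dvd_prod_of_subset S (Finset.Ico 1 (X + 1)) (fun n => n) h3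
    rwa [Finset.prod_Ico_id_eq_factorial] at h4
  rw [h1, log_fac (y := y) h0]
  · have h3 : ∀ p ∈ Nat.primesLE y, ((∏ n ∈ S, n).factorization p : ℝ) * Real.log p ≤
        X * (Real.log p / (p - 1 : ℝ)) := by
      intro p hp
      obtain ⟨hpy, hpp⟩ := Nat.mem_primesLE.1 hp
      have h4 := (Nat.factorization_le_iff_dvd h0 (Nat.factorial_ne_zero _)).2 h2 p
      have h5 := Nat.sub_one_mul_factorization_factorial (n := X) hpp
      have h6 : (p - 1) * (∏ n ∈ S, n).factorization p ≤ X := by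
        calc (p - 1) * (∏ n ∈ S, n).factorization p ≤ (p - 1) * (X !).factorization p := Nat.mul_le_mul_left _ h4
          _ ≤ X := by rw [h5]; exact Nat.sub_le _ _
      have h7 : ((p : ℝ) - 1) * ((∏ n ∈ S, n).factorization p : ℝ) ≤ X := by
        have h8 : (((p - 1 : ℕ) : ℝ)) = (p : ℝ) - 1 := by
          rw [Nat.cast_sub hpp.one_le, Nat.cast_one]
        rw [← h8]
        exact_mod_cast h6
      have h9 : 0 ≤ Real.log p := Real.log_nonneg (by exact_mod_cast hpp.one_le)
      have h10 : (0 : ℝ) < (p : ℝ) - 1 := by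
        have : (2 : ℝ) ≤ p := by exact_mod_cast hpp.two_le
        linarith
      rw [← mul_div_assoc, le_div_iff₀ h10]
      nlinarith
    refine (Finset.sum_le_sum h3).trans ?_
    rw [← Finset.mul_sum]
    exact mul_le_mul_of_nonneg_left (mertens' y hy1) (by positivity)
  · intro p hp hd
    obtain ⟨n, hn, hpn⟩ := (hp.prime.dvd_finsetProd_iff _).1 hd
    exact hy n hn p hp hpn

/-- Block PW-A. -/
theorem smooth (K C : ℕ) (hK : 1 ≤ K) : ∃ X₀ : ℕ, ∀ X, X₀ ≤ X → K * cn (SM K C) X ≤ 2 * X := by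
  classical
  have hKr : (1 : ℝ) ≤ K := by exact_mod_cast hK
  set D : ℝ := (C : ℝ) + 1 with hD
  have hD1 : 1 ≤ D := by
    rw [hD]
    have : (0 : ℝ) ≤ C := Nat.cast_nonneg C
    linarith
  set A : ℝ := 1 + 3 / 2 * (Real.log D / K + Real.log 4) with hA
  have hlD : 0 ≤ Real.log D := Real.log_nonneg hD1
  have hl4 : 0 ≤ Real.log 4 := Real.log_nonneg (by norm_num)
  have hA0 : 0 ≤ A := by rw [hA]; positivity
  set B : ℝ := Real.log (4 * K) with hB
  have hB0 : 0 ≤ B := Real.log_nonneg (by linarith)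
  refine ⟨⌈Real.exp (4 * (K * A + 7 / 4 * B) + B + 1)⌉₊ + 1, fun X hX => ?_⟩
  have hX1 : Real.exp (4 * (K * A + 7 / 4 * B) + B + 1) ≤ X := by
    refine (Nat.le_ceil _).trans ?_
    exact_mod_cast (by omega : ⌈Real.exp (4 * (K * A + 7 / 4 * B) + B + 1)⌉₊ ≤ X)
  have hX0 : (0 : ℝ) < X := lt_of_lt_of_le (Real.exp_pos _) hX1
  have hL : 4 * (K * A + 7 / 4 * B) + B + 1 ≤ Real.log X := (Real.le_log_iff_exp_le hX0).2 hX1
  set L := Real.log X with hLd
  -- the bound for the prime factors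
  set y : ℕ := ⌊((D * X : ℝ)) ^ ((1 : ℝ) / K)⌋₊ with hyd
  have hXge : (1 : ℝ) ≤ X := by
    have h1 : 1 ≤ X := by omega
    exact_mod_cast h1
  have hDX : 1 ≤ D * X := by nlinarith
  have hy1 : 1 ≤ y := by
    rw [hyd]
    refine Nat.le_floor ?_
    rw [Nat.cast_one]
    exact Real.one_le_rpow hDX (by positivity)
  have hlogy : Real.log y ≤ (Real.log D + L) / K := by
    have h1 : (y : ℝ) ≤ (D * X : ℝ) ^ ((1 : ℝ) / K) := Nat.floor_le (by positivity)
    have h2 : Real.log y ≤ Real.log ((D * X : ℝ) ^ ((1 : ℝ) / K)) :=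
      Real.log_le_log (by exact_mod_cast hy1) h1
    rw [Real.log_rpow (by positivity), Real.log_mul (by positivity) (by positivity)] at h2
    calc Real.log y ≤ 1 / K * (Real.log D + Real.log X) := h2
      _ = (Real.log D + L) / K := by rw [hLd]; ring
  set S : Finset ℕ := (Finset.Icc 1 X).filter (· ∈ SM K C) with hS
  have hSy : ∀ n ∈ S, ∀ p : ℕ, p.Prime → p ∣ n → p ≤ y := by
    intro n hn p hp hd
    obtain ⟨h1, h2⟩ := Finset.mem_filter.1 hn
    have h3 := h2 p hp hd
    have h4 : n ≤ X := (Finset.mem_Icc.1 h1).2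
    rw [hyd]
    refine Nat.le_floor ?_
    have h5 : ((p : ℝ)) ^ K ≤ D * X := by
      have h6 : ((p : ℝ)) ^ K ≤ C * n := by exact_mod_cast h3
      have h7 : (n : ℝ) ≤ X := by exact_mod_cast h4
      have h8 : (0 : ℝ) ≤ C := Nat.cast_nonneg C
      nlinarith
    have h6 : (p : ℝ) = ((p : ℝ) ^ K) ^ ((1 : ℝ) / K) := by
      rw [one_div, Real.pow_rpow_inv_natCast (Nat.cast_nonneg p) (by omega)]
    rw [h6]
    exact Real.rpow_le_rpow (by positivity) h5 (by positivity)
  have h1 := sum_log S (fun n hn => Finset.mem_Icc.1 (Finset.mem_filter.1 hn).1) hSy hy1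
  have h2 : ∑ n ∈ S, Real.log n ≤ X * (A + 3 / 2 * (L / K)) := by
    refine h1.trans (mul_le_mul_of_nonneg_left ?_ hX0.le)
    have h3 : (Real.log D + L) / K = Real.log D / K + L / K := add_div _ _ _
    rw [hA]
    rw [h3] at hlogy
    linarith
  -- the large elements
  have h3 : ((S.card : ℝ) - X / (4 * K)) * (L - B) ≤ ∑ n ∈ S, Real.log n := by
    have h4 : ∀ n ∈ S, (if (X : ℝ) / (4 * K) < n then L - B else 0) ≤ Real.log n := by
      intro n hn
      have h5 : 1 ≤ n := (Finset.mem_Icc.1 (Finset.mem_filter.1 hn).1).1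
      split_ifs with h6
      · have h7 : Real.log ((X : ℝ) / (4 * K)) ≤ Real.log n := Real.log_le_log (by positivity) h6.le
        rwa [Real.log_div (by positivity) (by positivity)] at h7
      · exact Real.log_nonneg (by exact_mod_cast h5)
    refine le_trans ?_ (Finset.sum_le_sum h4)
    rw [← Finset.sum_filter, Finset.sum_const, nsmul_eq_mul]
    have hLB : 0 ≤ L - B := by nlinarith
    refine mul_le_mul_of_nonneg_right ?_ hLB
    have h5 : S.card = (S.filter fun n : ℕ => (X : ℝ) / (4 * K) < n).card +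
        (S.filter fun n : ℕ => ¬ (X : ℝ) / (4 * K) < n).card := (Finset.card_filter_add_card_filter_not _).symm
    have h6 : ((S.filter fun n : ℕ => ¬ (X : ℝ) / (4 * K) < n).card : ℝ) ≤ X / (4 * K) := by
      have h7 : S.filter (fun n : ℕ => ¬ (X : ℝ) / (4 * K) < n) ⊆ Finset.Icc 1 ⌊(X : ℝ) / (4 * K)⌋₊ := by
        intro n hn
        obtain ⟨h8, h9⟩ := Finset.mem_filter.1 hn
        refine Finset.mem_Icc.2 ⟨(Finset.mem_Icc.1 (Finset.mem_filter.1 h8).1).1, Nat.le_floor (not_lt.1 h9)⟩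
      have h8 := Finset.card_le_card h7
      rw [Nat.card_Icc, Nat.add_sub_cancel] at h8
      calc ((S.filter fun n : ℕ => ¬ (X : ℝ) / (4 * K) < n).card : ℝ) ≤ (⌊(X : ℝ) / (4 * K)⌋₊ : ℝ) := by
            exact_mod_cast h8
        _ ≤ X / (4 * K) := Nat.floor_le (by positivity)
    have h7 : (S.card : ℝ) = ((S.filter fun n : ℕ => (X : ℝ) / (4 * K) < n).card : ℝ) +
        ((S.filter fun n : ℕ => ¬ (X : ℝ) / (4 * K) < n).card : ℝ) := by
      exact_mod_cast h5
    linarith
  have h4 : ((S.card : ℝ) - X / (4 * K)) * (L - B) ≤ X * (A + 3 / 2 * (L / K)) := h3.trans h2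
  have hLB : 0 < L - B := by nlinarith
  have hfin : (K : ℝ) * S.card ≤ 2 * X := by
    have h5 : (K : ℝ) * (((S.card : ℝ) - X / (4 * K)) * (L - B)) ≤ K * (X * (A + 3 / 2 * (L / K))) :=
      mul_le_mul_of_nonneg_left h4 (by linarith)
    have h6 : (K : ℝ) * (((S.card : ℝ) - X / (4 * K)) * (L - B)) = (K * S.card - X / 4) * (L - B) := by
      field_simp
    have h7 : (K : ℝ) * (X * (A + 3 / 2 * (L / K))) = X * (K * A + 3 / 2 * L) := by
      field_simp
    rw [h6, h7] at h5
    have h8 : (X : ℝ) * (K * A + 3 / 2 * L) ≤ X * (7 / 4 * (L - B)) := by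
      refine mul_le_mul_of_nonneg_left ?_ hX0.le
      linarith
    have h9 : (K * S.card - X / 4 : ℝ) * (L - B) ≤ (7 / 4 * X) * (L - B) := by
      calc (K * S.card - X / 4 : ℝ) * (L - B) ≤ X * (7 / 4 * (L - B)) := h5.trans h8
        _ = _ := by ring
    have h10 := le_of_mul_le_mul_right h9 hLB
    linarith
  have h5 : cn (SM K C) X = S.card := rfl
  rw [h5]
  exact_mod_cast hfin

end PW
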