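import Pool.Agent.Helper3.PW.Dt
import Pool.Agent.Helper3.TF.Fin

/-!
Project PW (MP_b8862a_ag): for a set `E` of density zero almost all (indecomposable) vectors of Hodge numbers, of every
weight at least two, have a sum that is not in `E`.
-/

open Finset

namespace PW

open TF

/-- the vectors with the sum in `E` -/
theorem card_dm (E : Set ℕ) {m w N : ℕ} (hw : w = 2 * m ∨ w = 2 * m + 1) :
    Nat.card {h : Fin (m + 1) → Fin (N + 1) // dm w (hod w fun j => (h j : ℕ)) ∈ E} ≤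
      (N + 1) ^ m * (cn E ((2 * m + 2) * N) + 1) := by
  classical
  -- the fibres
  have key : ∀ D : (Fin (m + 1) → ℕ) → ℕ, (∀ h : Fin (m + 1) → Fin (N + 1), D (fun j => (h j : ℕ)) ≤ (2 * m + 2) * N) →
      (∀ (t : Fin m → Fin (N + 1)) (x y : Fin (N + 1)),
        D (fun j => ((Fin.insertNth (α := fun _ => Fin (N + 1)) (0 : Fin (m + 1)) x t) j : ℕ)) =
        D (fun j => ((Fin.insertNth (α := fun _ => Fin (N + 1)) (0 : Fin (m + 1)) y t) j : ℕ)) → x = y) →
      (univ.filter fun h : Fin (m + 1) → Fin (N + 1) => D (fun j => (h j : ℕ)) ∈ E).card ≤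
        (N + 1) ^ m * (cn E ((2 * m + 2) * N) + 1) := by
    intro D hD hinj
    refine card_fib 0 _ fun t => ?_
    have h1 : (univ.filter fun x : Fin (N + 1) =>
        D (fun j => ((Fin.insertNth (α := fun _ => Fin (N + 1)) (0 : Fin (m + 1)) x t) j : ℕ)) ∈ E).card ≤
        (insert 0 ((Icc 1 ((2 * m + 2) * N)).filter (· ∈ E))).card := by
      refine card_le_card_of_injOn
        (fun x => D (fun j => ((Fin.insertNth (α := fun _ => Fin (N + 1)) (0 : Fin (m + 1)) x t) j : ℕ))) ?_ ?_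
      · intro x hx
        have h2 := (mem_filter.1 (mem_coe.1 hx)).2
        rw [mem_coe, mem_insert, mem_filter, mem_Icc]
        rcases Nat.eq_zero_or_pos
          (D (fun j => ((Fin.insertNth (α := fun _ => Fin (N + 1)) (0 : Fin (m + 1)) x t) j : ℕ))) with h3 | h3
        · exact Or.inl h3
        · exact Or.inr ⟨⟨h3, hD _⟩, h2⟩
      · intro x _ y _ hxy
        exact hinj t x y hxy
    exact h1.trans (card_insert_le _ _)
  have e1 : Nat.card {h : Fin (m + 1) → Fin (N + 1) // dm w (hod w fun j => (h j : ℕ)) ∈ E} =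
      Nat.card {h : Fin (m + 1) → Fin (N + 1) // dm w (hod w fun j => ((rv h) j : ℕ)) ∈ E} :=
    (card_rv (fun h : Fin (m + 1) → Fin (N + 1) => dm w (hod w fun j => (h j : ℕ)) ∈ E)).symm
  rw [e1, Nat.card_eq_fintype_card, Fintype.card_subtype]
  have e2 : ∀ (h : Fin (m + 1) → Fin (N + 1)) (j : Fin (m + 1)), rv h (Fin.rev j) = h j := fun h j => by
    show h (Fin.rev (Fin.rev j)) = h j
    rw [Fin.rev_rev]
  rcases hw with rfl | rfl
  · have e3 : ∀ h : Fin (m + 1) → Fin (N + 1),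
        dm (2 * m) (hod (2 * m) fun j => ((rv h) j : ℕ)) = dimn (fun j => (h j : ℕ)) := by
      intro h
      rw [dm_even]
      simp only [e2]
    simp only [e3]
    refine key dimn (fun h => (dimn_le h).trans (Nat.mul_le_mul_right N (by omega))) fun t x y hxy => ?_
    unfold dimn at hxy
    simp only [ins_zero, ins_succ] at hxy
    exact Fin.ext (by omega)
  · have e3 : ∀ h : Fin (m + 1) → Fin (N + 1),
        dm (2 * m + 1) (hod (2 * m + 1) fun j => ((rv h) j : ℕ)) = dimo (fun j => (h j : ℕ)) := by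
      intro h
      rw [dm_odd]
      simp only [e2]
    simp only [e3]
    refine key dimo (fun h => dimo_le h) fun t x y hxy => ?_
    unfold dimo at hxy
    simp only [ins_zero, ins_succ] at hxy
    exact Fin.ext (by omega)

theorem tendsto_dm {E : Set ℕ} (hE : Zero E) {m w : ℕ} (hw : w = 2 * m ∨ w = 2 * m + 1) :
    Filter.Tendsto (fun N : ℕ => (Nat.card {h : Fin (m + 1) → Fin (N + 1) //
      dm w (hod w fun j => (h j : ℕ)) ∈ E} : ℝ) / ((N : ℝ) + 1) ^ (m + 1)) Filter.atTop (nhds 0) := by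
  rw [Metric.tendsto_atTop]
  intro ε hε
  obtain ⟨K, hK⟩ := exists_nat_gt ((2 * m + 3 : ℝ) * 2 / ε)
  have hK0 : (0 : ℝ) < K := lt_of_le_of_lt (by positivity) hK
  obtain ⟨X0, hX0⟩ := hE K
  refine ⟨X0 + K, fun N hN => ?_⟩
  have h1 := card_dm E (N := N) hw
  have h2 := hX0 ((2 * m + 2) * N) (by nlinarith)
  obtain ⟨M, hM⟩ : ∃ M : ℝ, M = (N : ℝ) + 1 := ⟨_, rfl⟩
  have hM0 : 0 < M := by
    rw [hM]
    positivity
  have h3 : (Nat.card {h : Fin (m + 1) → Fin (N + 1) // dm w (hod w fun j => (h j : ℕ)) ∈ E} : ℝ) ≤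
      M ^ m * ((cn E ((2 * m + 2) * N) : ℝ) + 1) := by
    rw [hM]
    exact_mod_cast h1
  have h4 : (K : ℝ) * (cn E ((2 * m + 2) * N) : ℝ) ≤ (2 * m + 2) * M := by
    have h5 : (K : ℝ) * (cn E ((2 * m + 2) * N) : ℝ) ≤ (2 * m + 2) * N := by exact_mod_cast h2
    rw [hM]
    have : (0 : ℝ) ≤ m := Nat.cast_nonneg m
    nlinarith
  have h5 : (K : ℝ) * 1 ≤ M := by
    rw [hM]
    have h6 : K ≤ N := by omega
    have h7 : (K : ℝ) ≤ N := by exact_mod_cast h6
    linarith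
  have h6 : (K : ℝ) * ((cn E ((2 * m + 2) * N) : ℝ) + 1) ≤ (2 * m + 3) * M := by
    rw [mul_add]
    linarith
  rw [← hM, Real.dist_eq, sub_zero, abs_of_nonneg (by positivity), div_lt_iff₀ (by positivity)]
  refine lt_of_le_of_lt h3 ?_
  have h7 : ((cn E ((2 * m + 2) * N) : ℝ) + 1) < ε * M := by
    have h8 : (2 * m + 3 : ℝ) * 2 < K * ε := by
      rwa [div_lt_iff₀ hε] at hK
    have h9 : (K : ℝ) * ((cn E ((2 * m + 2) * N) : ℝ) + 1) < K * (ε * M) := by
      refine lt_of_le_of_lt h6 ?_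
      have h10 : (2 * (m : ℝ) + 3) * M < (K * ε) * M := by
        refine mul_lt_mul_of_pos_right ?_ hM0
        have : (0 : ℝ) ≤ m := Nat.cast_nonneg m
        linarith
      linarith
    exact lt_of_mul_lt_mul_left h9 hK0.le
  calc M ^ m * ((cn E ((2 * m + 2) * N) : ℝ) + 1) < M ^ m * (ε * M) := mul_lt_mul_of_pos_left h7 (by positivity)
    _ = ε * M ^ (m + 1) := by ring

/-- the vectors with entries at most one -/
theorem tendsto_one (m : ℕ) :
    Filter.Tendsto (fun N : ℕ => (Nat.card {h : Fin (m + 1) → Fin (N + 1) // ∀ j, (h j : ℕ) ≤ 1} : ℝ) /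
      ((N : ℝ) + 1) ^ (m + 1)) Filter.atTop (nhds 0) := by
  classical
  have h1 : ∀ N : ℕ, (Nat.card {h : Fin (m + 1) → Fin (N + 1) // ∀ j, (h j : ℕ) ≤ 1} : ℝ) ≤ 2 ^ (m + 1) := by
    intro N
    have h2 := Nat.card_le_card_of_injective
      (fun x : {h : Fin (m + 1) → Fin (N + 1) // ∀ j, (h j : ℕ) ≤ 1} =>
        (fun j => (⟨(x.1 j : ℕ), Nat.lt_succ_of_le (x.2 j)⟩ : Fin 2)))
      (fun x y hxy => Subtype.ext (funext fun j => Fin.ext (by
        have h3 := Fin.ext_iff.1 (congrFun hxy j)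
        exact h3)))
    rw [Nat.card_eq_fintype_card (α := Fin (m + 1) → Fin 2), Fintype.card_fun, Fintype.card_fin,
      Fintype.card_fin] at h2
    exact_mod_cast h2
  have h2 : Filter.Tendsto (fun N : ℕ => (2 : ℝ) ^ (m + 1) / ((N : ℝ) + 1) ^ (m + 1)) Filter.atTop (nhds 0) := by
    refine Filter.Tendsto.div_atTop tendsto_const_nhds ?_
    refine (Filter.tendsto_pow_atTop (by omega)).comp ?_
    exact Filter.tendsto_atTop_add_const_right _ _ tendsto_natCast_atTop_atTop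
  refine tendsto_of_tendsto_of_tendsto_of_le_of_le tendsto_const_nhds h2 (fun N => by positivity) fun N => ?_
  exact div_le_div_of_nonneg_right (h1 N) (by positivity)

/-- the indecomposable vectors have positive density in every weight at least two -/
theorem indec_low (m w : ℕ) (hm : 1 ≤ m) (hw : w = 2 * m ∨ w = 2 * m + 1) :
    ∀ᶠ N : ℕ in Filter.atTop, ((N : ℝ) + 1) ^ (m + 1) ≤ 4 * (Nat.card {h : Fin (m + 1) → Fin (N + 1) //
      NI.Indec (w : ℤ) (hod w (fun j => (h j : ℕ)))} : ℝ) := by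
  rcases hw with rfl | rfl
  · have h1 := (density_all m (2 * m) hm (Or.inl rfl) 0).2 rfl
    have h2 : ∀ᶠ N : ℕ in Filter.atTop, (1 / 2 : ℝ) < (Nat.card {h : Fin (m + 1) → Fin (N + 1) //
        NI.Indec ((2 * m : ℕ) : ℤ) (hod (2 * m) (fun j => (h j : ℕ)))} : ℝ) / ((N : ℝ) + 1) ^ (m + 1) :=
      h1.eventually (lt_mem_nhds (by norm_num))
    filter_upwards [h2] with N hN
    rw [lt_div_iff₀ (by positivity)] at hN
    have h3 : (0 : ℝ) ≤ (Nat.card {h : Fin (m + 1) → Fin (N + 1) //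
        NI.Indec ((2 * m : ℕ) : ℤ) (hod (2 * m) (fun j => (h j : ℕ)))} : ℝ) := Nat.cast_nonneg _
    linarith
  · obtain ⟨m, rfl⟩ := Nat.exists_eq_add_of_le' hm
    obtain ⟨A, hA⟩ : ∃ A : ℝ, A = (1 + 2 * ((2 * m + 4) * (2 ^ (m + 2) * (2 * m + 5) ^ (m + 2))) : ℝ) := ⟨_, rfl⟩
    have hlim : Filter.Tendsto (fun N : ℕ => A / √((N : ℝ) + 1)) Filter.atTop (nhds 0) := by
      refine Filter.Tendsto.div_atTop tendsto_const_nhds ?_
      exact Real.tendsto_sqrt_atTop.comp (Filter.tendsto_atTop_add_const_right _ _ tendsto_natCast_atTop_atTop)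
    have hev : ∀ᶠ N : ℕ in Filter.atTop, A / √((N : ℝ) + 1) < 1 / 2 :=
      hlim.eventually (gt_mem_nhds (by norm_num))
    filter_upwards [hev] with N hN
    have h2 := card_indec (m := m) (N := N)
    rw [← hA] at h2
    obtain ⟨M, hM⟩ : ∃ M : ℝ, M = (N : ℝ) + 1 := ⟨_, rfl⟩
    have hM0 : 0 < M := by
      rw [hM]
      positivity
    rw [← hM] at h2 hN ⊢
    have h8 : 0 < √M := Real.sqrt_pos.2 hM0
    have h9 : √M * √M = M := Real.mul_self_sqrt hM0.le
    rw [div_lt_iff₀ h8] at hN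
    have h10 : A * (M ^ (m + 1) * √M) ≤ 1 / 2 * M ^ (m + 2) := by
      have h11 : 1 / 2 * M ^ (m + 2) = (1 / 2 * √M) * (M ^ (m + 1) * √M) := by
        calc 1 / 2 * M ^ (m + 2) = 1 / 2 * (M ^ (m + 1) * (√M * √M)) := by
              rw [h9]
              ring
          _ = (1 / 2 * √M) * (M ^ (m + 1) * √M) := by ring
      rw [h11]
      exact mul_le_mul_of_nonneg_right hN.le (by positivity)
    have h12 : M ^ (m + 1 + 1) = M ^ (m + 2) := rfl
    rw [h12]
    linarith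

/-- **Almost all vectors.** For a set `E` of density zero and a weight `w ≥ 2`, among the indecomposable vectors of Hodge
numbers the share of those with some number at least two and the sum not in `E` tends to one; for even weight also among
all the vectors. -/
theorem share {E : Set ℕ} (hE : Zero E) (m w : ℕ) (hm : 1 ≤ m) (hw : w = 2 * m ∨ w = 2 * m + 1) :
    Filter.Tendsto (fun N : ℕ => (Nat.card {h : Fin (m + 1) → Fin (N + 1) //
        NI.Indec (w : ℤ) (hod w fun j => (h j : ℕ)) ∧ (∃ j, 2 ≤ (h j : ℕ)) ∧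
          dm w (hod w fun j => (h j : ℕ)) ∉ E} : ℝ) /
      (Nat.card {h : Fin (m + 1) → Fin (N + 1) // NI.Indec (w : ℤ) (hod w fun j => (h j : ℕ))} : ℝ))
      Filter.atTop (nhds 1) ∧
    (w = 2 * m → Filter.Tendsto (fun N : ℕ => (Nat.card {h : Fin (m + 1) → Fin (N + 1) //
        NI.Indec (w : ℤ) (hod w fun j => (h j : ℕ)) ∧ (∃ j, 2 ≤ (h j : ℕ)) ∧
          dm w (hod w fun j => (h j : ℕ)) ∉ E} : ℝ) / ((N : ℝ) + 1) ^ (m + 1)) Filter.atTop (nhds 1)) := by
  classical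
  have hfirst : Filter.Tendsto (fun N : ℕ => (Nat.card {h : Fin (m + 1) → Fin (N + 1) //
        NI.Indec (w : ℤ) (hod w fun j => (h j : ℕ)) ∧ (∃ j, 2 ≤ (h j : ℕ)) ∧
          dm w (hod w fun j => (h j : ℕ)) ∉ E} : ℝ) /
      (Nat.card {h : Fin (m + 1) → Fin (N + 1) // NI.Indec (w : ℤ) (hod w fun j => (h j : ℕ))} : ℝ))
      Filter.atTop (nhds 1) := by
    have h1 := tendsto_dm hE (m := m) hw
    have h2 := tendsto_one m
    have h4 : Filter.Tendsto (fun N : ℕ => 1 - 4 * ((Nat.card {h : Fin (m + 1) → Fin (N + 1) //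
        dm w (hod w fun j => (h j : ℕ)) ∈ E} : ℝ) / ((N : ℝ) + 1) ^ (m + 1) +
        (Nat.card {h : Fin (m + 1) → Fin (N + 1) // ∀ j, (h j : ℕ) ≤ 1} : ℝ) / ((N : ℝ) + 1) ^ (m + 1)))
        Filter.atTop (nhds 1) := by
      have h5 := ((h1.add h2).const_mul 4).const_sub 1
      rwa [add_zero, mul_zero, sub_zero] at h5
    refine tendsto_of_tendsto_of_tendsto_of_le_of_le' h4 tendsto_const_nhds ?_ ?_
    · filter_upwards [indec_low m w hm hw] with N hN
      obtain ⟨M, hM⟩ : ∃ M : ℝ, M = ((N : ℝ) + 1) ^ (m + 1) := ⟨_, rfl⟩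
      have hM0 : 0 < M := by
        rw [hM]
        positivity
      rw [← hM] at hN ⊢
      obtain ⟨I, hI⟩ : ∃ I : ℕ, I = Nat.card {h : Fin (m + 1) → Fin (N + 1) //
          NI.Indec (w : ℤ) (hod w fun j => (h j : ℕ))} := ⟨_, rfl⟩
      obtain ⟨B, hB⟩ : ∃ B : ℕ, B = Nat.card {h : Fin (m + 1) → Fin (N + 1) //
          dm w (hod w fun j => (h j : ℕ)) ∈ E} := ⟨_, rfl⟩
      obtain ⟨D, hD⟩ : ∃ D : ℕ, D = Nat.card {h : Fin (m + 1) → Fin (N + 1) // ∀ j, (h j : ℕ) ≤ 1} := ⟨_, rfl⟩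
      obtain ⟨J, hJ⟩ : ∃ J : ℕ, J = Nat.card {h : Fin (m + 1) → Fin (N + 1) //
          NI.Indec (w : ℤ) (hod w fun j => (h j : ℕ)) ∧ (∃ j, 2 ≤ (h j : ℕ)) ∧
          dm w (hod w fun j => (h j : ℕ)) ∉ E} := ⟨_, rfl⟩
      have h5 : I ≤ J + (B + D) := by
        rw [hI, hJ, hB, hD, Nat.card_eq_fintype_card, Nat.card_eq_fintype_card, Nat.card_eq_fintype_card,
          Nat.card_eq_fintype_card, Fintype.card_subtype, Fintype.card_subtype, Fintype.card_subtype,
          Fintype.card_subtype]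
        refine le_trans (card_le_card ?_) ((card_union_le _ _).trans (Nat.add_le_add_left (card_union_le _ _) _))
        intro h hh
        rw [mem_filter] at hh
        rw [mem_union, mem_union, mem_filter, mem_filter, mem_filter]
        by_cases h6 : dm w (hod w fun j => (h j : ℕ)) ∈ E
        · exact Or.inr (Or.inl ⟨hh.1, h6⟩)
        · by_cases h7 : ∀ j, (h j : ℕ) ≤ 1
          · exact Or.inr (Or.inr ⟨hh.1, h7⟩)
          · push Not at h7
            exact Or.inl ⟨hh.1, hh.2, h7, h6⟩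
      rw [← hI, ← hJ, ← hB, ← hD]
      rw [← hI] at hN
      have h5' : (I : ℝ) ≤ J + (B + D) := by exact_mod_cast h5
      have hI0 : (0 : ℝ) < I := by linarith
      rw [le_div_iff₀ hI0]
      have h6 : ((B : ℝ) / M + D / M) * (4 * I) ≥ B + D := by
        rw [ge_iff_le, ← add_div, div_mul_eq_mul_div, le_div_iff₀ hM0]
        exact mul_le_mul_of_nonneg_left hN (by positivity)
      nlinarith
    · refine Filter.Eventually.of_forall fun N => div_le_one_of_le₀ ?_ (by positivity)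
      exact_mod_cast Nat.card_le_card_of_injective
        (fun x : {h : Fin (m + 1) → Fin (N + 1) //
          NI.Indec (w : ℤ) (hod w fun j => (h j : ℕ)) ∧ (∃ j, 2 ≤ (h j : ℕ)) ∧
            dm w (hod w fun j => (h j : ℕ)) ∉ E} =>
          (⟨x.1, x.2.1⟩ : {h : Fin (m + 1) → Fin (N + 1) // NI.Indec (w : ℤ) (hod w fun j => (h j : ℕ))}))
        fun x y hxy => Subtype.ext (congrArg (fun z => z.1) hxy)
  refine ⟨hfirst, fun hw2 => ?_⟩
  have h4 := (density_all m w hm hw 0).2 hw2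
  have h5 := hfirst.mul h4
  rw [one_mul] at h5
  refine h5.congr' ?_
  have h6 : ∀ᶠ N : ℕ in Filter.atTop, (0 : ℝ) < (Nat.card {h : Fin (m + 1) → Fin (N + 1) //
      NI.Indec (w : ℤ) (hod w fun j => (h j : ℕ))} : ℝ) / ((N : ℝ) + 1) ^ (m + 1) :=
    h4.eventually (lt_mem_nhds one_pos)
  filter_upwards [h6] with N hN
  have h7 : (Nat.card {h : Fin (m + 1) → Fin (N + 1) //
      NI.Indec (w : ℤ) (hod w fun j => (h j : ℕ))} : ℝ) ≠ 0 := by
    intro h8
    rw [h8, zero_div] at hN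
    exact lt_irrefl _ hN
  rw [div_mul_div_cancel₀ h7]

theorem exists_two {m w : ℕ} (hw : w = 2 * m ∨ w = 2 * m + 1) (h : Fin (m + 1) → ℕ) :
    (∃ j, 2 ≤ h j) ↔ ∃ p : ℤ, 2 ≤ hod w h p := by
  constructor
  · rintro ⟨j, hj⟩
    refine ⟨((j : ℕ) : ℤ), ?_⟩
    rw [hod_left (j := j) rfl (by
      have := j.2
      omega)]
    exact hj
  · rintro ⟨p, hp⟩
    unfold hod at hp
    split_ifs at hp with h1
    · exact ⟨_, hp⟩
    · omega

/-- The same with the numbers `hod w h p`. -/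
theorem share' {E : Set ℕ} (hE : Zero E) (m w : ℕ) (hm : 1 ≤ m) (hw : w = 2 * m ∨ w = 2 * m + 1) :
    Filter.Tendsto (fun N : ℕ => (Nat.card {h : Fin (m + 1) → Fin (N + 1) //
        NI.Indec (w : ℤ) (hod w fun j => (h j : ℕ)) ∧ (∃ p : ℤ, 2 ≤ hod w (fun j => (h j : ℕ)) p) ∧
          ∑ p ∈ Icc (0 : ℤ) w, hod w (fun j => (h j : ℕ)) p ∉ E} : ℝ) /
      (Nat.card {h : Fin (m + 1) → Fin (N + 1) // NI.Indec (w : ℤ) (hod w fun j => (h j : ℕ))} : ℝ))
      Filter.atTop (nhds 1) ∧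
    (w = 2 * m → Filter.Tendsto (fun N : ℕ => (Nat.card {h : Fin (m + 1) → Fin (N + 1) //
        NI.Indec (w : ℤ) (hod w fun j => (h j : ℕ)) ∧ (∃ p : ℤ, 2 ≤ hod w (fun j => (h j : ℕ)) p) ∧
          ∑ p ∈ Icc (0 : ℤ) w, hod w (fun j => (h j : ℕ)) p ∉ E} : ℝ) / ((N : ℝ) + 1) ^ (m + 1))
      Filter.atTop (nhds 1)) := by
  have h1 := share hE m w hm hw
  have h2 : ∀ {N : ℕ} (h : Fin (m + 1) → Fin (N + 1)),
      (NI.Indec (w : ℤ) (hod w fun j => (h j : ℕ)) ∧ (∃ j, 2 ≤ (h j : ℕ)) ∧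
          dm w (hod w fun j => (h j : ℕ)) ∉ E) ↔
      (NI.Indec (w : ℤ) (hod w fun j => (h j : ℕ)) ∧ (∃ p : ℤ, 2 ≤ hod w (fun j => (h j : ℕ)) p) ∧
          ∑ p ∈ Icc (0 : ℤ) w, hod w (fun j => (h j : ℕ)) p ∉ E) := by
    intro N h
    rw [← exists_two hw (fun j => (h j : ℕ))]
    rfl
  simpa only [h2] using h1

end PW
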