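import Pool.Agent.Helper3.PW.Dt

/-!
Project PX (MP_b8862a_ag): the values of finitely many Weyl polynomials in at least two variables with a second injective
choice of factors: at most `C X ^ (1 / 2 + ε)` values up to `X`.
-/

set_option linter.unusedSectionVars false

open Finset Nat

namespace PW

/-- The set has at most `C X ^ e` elements up to `X`. -/
def Thin (S : Set ℕ) (e : ℝ) : Prop := ∃ C : ℝ, 0 ≤ C ∧ ∀ X : ℕ, 1 ≤ X → (cn S X : ℝ) ≤ C * (X : ℝ) ^ e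

theorem Thin.mono3 {S T : Set ℕ} {e : ℝ} (h : Thin T e) (hST : S ⊆ T) : Thin S e := by
  classical
  obtain ⟨C, h0, h1⟩ := h
  refine ⟨C, h0, fun X hX => le_trans ?_ (h1 X hX)⟩
  refine Nat.cast_le.2 (Finset.card_le_card fun n hn => ?_)
  obtain ⟨h1, h2⟩ := Finset.mem_filter.1 hn
  exact Finset.mem_filter.2 ⟨h1, hST h2⟩

theorem thin_iUnion3 {ι : Type*} [Fintype ι] (S : ι → Set ℕ) {e : ℝ} (h : ∀ i, Thin (S i) e) : Thin (⋃ i, S i) e := by
  classical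
  choose C h0 h1 using h
  refine ⟨∑ i, C i, Finset.sum_nonneg fun i _ => h0 i, fun X hX => ?_⟩
  have h2 : cn (⋃ i, S i) X ≤ ∑ i, cn (S i) X := by
    unfold cn
    refine le_trans (Finset.card_le_card (t := Finset.univ.biUnion fun i => (Finset.Icc 1 X).filter (· ∈ S i))
      fun n hn => ?_) Finset.card_biUnion_le
    obtain ⟨h2, h3⟩ := Finset.mem_filter.1 hn
    obtain ⟨i, hi⟩ := Set.mem_iUnion.1 h3
    exact Finset.mem_biUnion.2 ⟨i, Finset.mem_univ _, Finset.mem_filter.2 ⟨h2, hi⟩⟩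
  calc (cn (⋃ i, S i) X : ℝ) ≤ ∑ i, (cn (S i) X : ℝ) := by exact_mod_cast h2
    _ ≤ ∑ i, C i * (X : ℝ) ^ e := Finset.sum_le_sum fun i _ => h1 i X hX
    _ = (∑ i, C i) * (X : ℝ) ^ e := by rw [Finset.sum_mul]

theorem Thin.union3 {S T : Set ℕ} {e : ℝ} (hS : Thin S e) (hT : Thin T e) : Thin (S ∪ T) e := by
  rw [Set.union_eq_iUnion]
  refine thin_iUnion3 _ fun b => ?_
  cases b
  · exact hT
  · exact hS

/-- larger exponents -/
theorem Thin.le_exp {S : Set ℕ} {e e' : ℝ} (h : Thin S e) (he : e ≤ e') : Thin S e' := by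
  obtain ⟨C, h0, h1⟩ := h
  refine ⟨C, h0, fun X hX => (h1 X hX).trans ?_⟩
  have h2 : (1 : ℝ) ≤ X := by exact_mod_cast hX
  exact mul_le_mul_of_nonneg_left (Real.rpow_le_rpow_of_exponent_le h2 he) h0

/-- a thin set with exponent less than one has density zero -/
theorem Thin.zero {S : Set ℕ} {e : ℝ} (h : Thin S e) (he : e < 1) : Zero S := by
  obtain ⟨C, h0, h1⟩ := h
  intro K
  obtain ⟨T, hT⟩ : ∃ T : ℝ, T = K * C + 1 := ⟨_, rfl⟩
  have hT1 : 1 ≤ T := by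
    rw [hT]
    have : 0 ≤ (K : ℝ) * C := by positivity
    linarith
  have he0 : 0 < 1 - e := by linarith
  refine ⟨⌈T ^ (1 / (1 - e))⌉₊ + 1, fun X hX => ?_⟩
  have hX1 : T ^ (1 / (1 - e)) ≤ X := by
    refine (Nat.le_ceil _).trans ?_
    exact_mod_cast (by omega : ⌈T ^ (1 / (1 - e))⌉₊ ≤ X)
  have hXge : 1 ≤ X := by omega
  have hX0 : (0 : ℝ) < X := by exact_mod_cast hXge
  have h2 : T ≤ (X : ℝ) ^ (1 - e) := by
    have h3 : T = (T ^ (1 / (1 - e))) ^ (1 - e) := by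
      rw [← Real.rpow_mul (by linarith), one_div, inv_mul_cancel₀ he0.ne', Real.rpow_one]
    rw [h3]
    exact Real.rpow_le_rpow (by positivity) hX1 he0.le
  have h3 : (K : ℝ) * cn S X ≤ X := by
    calc (K : ℝ) * cn S X ≤ K * (C * (X : ℝ) ^ e) := mul_le_mul_of_nonneg_left (h1 X hXge) (Nat.cast_nonneg K)
      _ = (K * C) * (X : ℝ) ^ e := by ring
      _ ≤ T * (X : ℝ) ^ e := mul_le_mul_of_nonneg_right (by rw [hT]; linarith) (by positivity)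
      _ ≤ (X : ℝ) ^ (1 - e) * (X : ℝ) ^ e := mul_le_mul_of_nonneg_right h2 (by positivity)
      _ = X := by
          rw [← Real.rpow_add hX0]
          norm_num
  exact_mod_cast h3

/-- The arithmetic datum of Weyl's dimension formula with `t`: every simple coroot `j` is contained in a non-simple positive
coroot `t j`, and `t` is injective. -/
def Dt2 (M n : ℕ) : Prop := ∃ (r N : ℕ) (f : Fin N → Fin r → ℕ) (b : Fin r → ℕ) (s t : Fin r → Fin N),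
  2 ≤ r ∧ r ≤ M ∧ N ≤ M ∧ (∀ a j, f a j ≤ 4 * M) ∧ (∀ a, 0 < ∑ j, f a j) ∧ (∀ j, 0 < b j) ∧
  Function.Injective s ∧ (∀ j i, f (s j) i = if i = j then 1 else 0) ∧
  Function.Injective t ∧ (∀ i j, s i ≠ t j) ∧ (∀ j, 1 ≤ f (t j) j) ∧
  n * ∏ a, ∑ j, f a j = ∏ a, ∑ j, f a j * b j

/-- The number of the vectors with a small product. -/
theorem box_card2 (r Z : ℕ) (hZ : 1 ≤ Z) :
    (((Fintype.piFinset fun _ : Fin r => Finset.Icc 1 Z).filter fun b => (∏ j, b j) ^ 2 ≤ Z).card : ℝ) ≤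
      (Z : ℝ) ^ (1 / 2 : ℝ) * (1 + Real.log Z) ^ r := by
  classical
  have hZ0 : (0 : ℝ) < Z := by exact_mod_cast hZ
  rw [Finset.card_eq_sum_ones, Nat.cast_sum]
  have h1 : ∀ b ∈ (Fintype.piFinset fun _ : Fin r => Finset.Icc 1 Z).filter (fun b => (∏ j, b j) ^ 2 ≤ Z),
      ((1 : ℕ) : ℝ) ≤ (Z : ℝ) ^ (1 / 2 : ℝ) * ∏ j, ((b j : ℝ))⁻¹ := by
    intro b hb
    obtain ⟨h2, h3⟩ := Finset.mem_filter.1 hb
    have h4 : ∀ j, 1 ≤ b j := fun j => (Finset.mem_Icc.1 (Fintype.mem_piFinset.1 h2 j)).1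
    have h5 : (0 : ℝ) < ∏ j, (b j : ℝ) := Finset.prod_pos fun j _ => by exact_mod_cast h4 j
    have h6 : (∏ j, (b j : ℝ)) ≤ (Z : ℝ) ^ (1 / 2 : ℝ) := by
      have h7 : (∏ j, (b j : ℝ)) ^ 2 ≤ (Z : ℝ) := by exact_mod_cast h3
      rw [← Real.sqrt_eq_rpow]
      exact Real.le_sqrt_of_sq_le h7
    rw [Finset.prod_inv_distrib, Nat.cast_one, ← div_eq_mul_inv, le_div_iff₀ h5, one_mul]
    exact h6
  refine (Finset.sum_le_sum h1).trans ?_
  have h2 : ∑ b ∈ (Fintype.piFinset fun _ : Fin r => Finset.Icc 1 Z).filter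
      (fun b => (∏ j, b j) ^ 2 ≤ Z), (Z : ℝ) ^ (1 / 2 : ℝ) * ∏ j, ((b j : ℝ))⁻¹ ≤
      ∑ b ∈ (Fintype.piFinset fun _ : Fin r => Finset.Icc 1 Z), (Z : ℝ) ^ (1 / 2 : ℝ) * ∏ j, ((b j : ℝ))⁻¹ := by
    refine Finset.sum_le_sum_of_subset_of_nonneg (Finset.filter_subset _ _) fun b _ _ => by positivity
  refine h2.trans ?_
  rw [← Finset.mul_sum, Finset.sum_prod_piFinset (Finset.Icc 1 Z) fun (_ : Fin r) (j : ℕ) => ((j : ℝ))⁻¹]
  rw [Finset.prod_const, Finset.card_univ, Fintype.card_fin]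
  refine mul_le_mul_of_nonneg_left ?_ (by positivity)
  refine pow_le_pow_left₀ (Finset.sum_nonneg fun j _ => by positivity) ?_ r
  have h3 := harmonic_le_one_add_log Z
  rw [harmonic_eq_sum_Icc] at h3
  push_cast at h3
  exact h3

/-- a power of the logarithm -/
theorem log_pow3 (r : ℕ) {ε : ℝ} (hε : 0 < ε) : ∃ C : ℝ, 0 ≤ C ∧ ∀ Z : ℝ, 1 ≤ Z → (1 + Real.log Z) ^ r ≤ C * Z ^ ε := by
  rcases Nat.eq_zero_or_pos r with hr | hr
  · subst hr
    refine ⟨1, zero_le_one, fun Z hZ => ?_⟩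
    rw [pow_zero, one_mul]
    exact Real.one_le_rpow hZ hε.le
  have hr0 : (0 : ℝ) < r := by exact_mod_cast hr
  obtain ⟨δ, hδ⟩ : ∃ δ : ℝ, δ = ε / r := ⟨_, rfl⟩
  have hδ0 : 0 < δ := by
    rw [hδ]
    positivity
  refine ⟨(1 + 1 / δ) ^ r, by positivity, fun Z hZ => ?_⟩
  have hZ0 : 0 < Z := by linarith
  have h1 : 1 + Real.log Z ≤ (1 + 1 / δ) * Z ^ δ := by
    have h2 := Real.log_le_rpow_div hZ0.le hδ0
    have h3 : 1 ≤ Z ^ δ := Real.one_le_rpow hZ hδ0.le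
    calc 1 + Real.log Z ≤ Z ^ δ + Z ^ δ / δ := add_le_add h3 h2
      _ = (1 + 1 / δ) * Z ^ δ := by ring
  have h0 : 0 ≤ 1 + Real.log Z := by
    have := Real.log_nonneg hZ
    linarith
  calc (1 + Real.log Z) ^ r ≤ ((1 + 1 / δ) * Z ^ δ) ^ r := pow_le_pow_left₀ h0 h1 r
    _ = (1 + 1 / δ) ^ r * Z ^ ε := by
        rw [mul_pow, ← Real.rpow_natCast (Z ^ δ) r, ← Real.rpow_mul hZ0.le, hδ, div_mul_cancel₀ _ hr0.ne']

/-- The product formula bounds the numbers `b`. -/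
theorem prod_bound2 {r N : ℕ} (f : Fin N → Fin r → ℕ) (b : Fin r → ℕ) (s t : Fin r → Fin N)
    (hf : ∀ a, 0 < ∑ j, f a j) (hb : ∀ j, 0 < b j) (hs : Function.Injective s)
    (hsf : ∀ j i, f (s j) i = if i = j then 1 else 0) (ht : Function.Injective t) (hst : ∀ i j, s i ≠ t j)
    (htf : ∀ j, 1 ≤ f (t j) j) :
    (∏ j, b j) ^ 2 ≤ ∏ a, ∑ j, f a j * b j ∧ ∀ j, b j ≤ ∏ a, ∑ j, f a j * b j := by
  classical
  set G : Fin N → ℕ := fun a => ∑ j, f a j * b j with hG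
  have hG1 : ∀ a, 1 ≤ G a := by
    intro a
    obtain ⟨j, _, hj⟩ := Finset.exists_ne_zero_of_sum_ne_zero (hf a).ne'
    have h1 : f a j * b j ≤ G a := Finset.single_le_sum (f := fun j => f a j * b j) (fun i _ => Nat.zero_le _)
      (Finset.mem_univ j)
    have h2 : 0 < f a j * b j := Nat.mul_pos (Nat.pos_of_ne_zero hj) (hb j)
    omega
  have hGs : ∀ j, G (s j) = b j := by
    intro j
    rw [hG]
    simp only [hsf, ite_mul, one_mul, zero_mul, Finset.sum_ite_eq', Finset.mem_univ, if_true]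
  have hGt : ∀ j, b j ≤ G (t j) := by
    intro j
    have h3 : f (t j) j * b j ≤ G (t j) := Finset.single_le_sum (f := fun i => f (t j) i * b i)
      (fun i _ => Nat.zero_le _) (Finset.mem_univ j)
    have := htf j
    nlinarith
  have hle : ∀ a, G a ≤ ∏ a, G a := fun a => Finset.single_le_prod' (fun i _ => hG1 i) (Finset.mem_univ a)
  refine ⟨?_, fun j => hGs j ▸ hle (s j)⟩
  have hdis : Disjoint (Finset.univ.image s) (Finset.univ.image t) := by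
    rw [Finset.disjoint_left]
    intro a h1 h2
    obtain ⟨i, _, hi⟩ := Finset.mem_image.1 h1
    obtain ⟨j, _, hj⟩ := Finset.mem_image.1 h2
    exact hst i j (hi.trans hj.symm)
  calc (∏ j, b j) ^ 2 = (∏ j, b j) * ∏ j, b j := sq _
    _ ≤ (∏ j, G (s j)) * ∏ j, G (t j) := by
        refine Nat.mul_le_mul (le_of_eq ?_) (Finset.prod_le_prod' fun j _ => hGt j)
        simp only [hGs]
    _ = (∏ a ∈ Finset.univ.image s, G a) * ∏ a ∈ Finset.univ.image t, G a := by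
        rw [Finset.prod_image fun x _ y _ h => hs h, Finset.prod_image fun x _ y _ h => ht h]
    _ = ∏ a ∈ (Finset.univ.image s) ∪ (Finset.univ.image t), G a := (Finset.prod_union hdis).symm
    _ ≤ ∏ a, G a := Finset.prod_le_prod_of_subset_of_one_le' (Finset.subset_univ _) fun i _ _ => hG1 i

/-- The values of one Weyl polynomial. -/
theorem thin_one {r N : ℕ} (f : Fin N → Fin r → ℕ) {ε : ℝ} (hε : 0 < ε) :
    Thin {n | ∃ (b : Fin r → ℕ) (s t : Fin r → Fin N),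
    (∀ a, 0 < ∑ j, f a j) ∧ (∀ j, 0 < b j) ∧ Function.Injective s ∧ (∀ j i, f (s j) i = if i = j then 1 else 0) ∧
    Function.Injective t ∧ (∀ i j, s i ≠ t j) ∧ (∀ j, 1 ≤ f (t j) j) ∧
    n * ∏ a, ∑ j, f a j = ∏ a, ∑ j, f a j * b j} (1 / 2 + ε) := by
  classical
  set Q : ℕ := ∏ a, ∑ j, f a j with hQ
  obtain ⟨C, hC0, hC⟩ := log_pow3 r hε
  refine ⟨C * (Q : ℝ) ^ (1 / 2 + ε), by positivity, fun X hX => ?_⟩
  rcases Nat.eq_zero_or_pos (Q * X) with hZ | hZ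
  · have h2 : cn {n | ∃ (b : Fin r → ℕ) (s t : Fin r → Fin N),
        (∀ a, 0 < ∑ j, f a j) ∧ (∀ j, 0 < b j) ∧ Function.Injective s ∧ (∀ j i, f (s j) i = if i = j then 1 else 0) ∧
        Function.Injective t ∧ (∀ i j, s i ≠ t j) ∧ (∀ j, 1 ≤ f (t j) j) ∧
        n * Q = ∏ a, ∑ j, f a j * b j} X = 0 := by
      unfold cn
      rw [Finset.card_eq_zero, Finset.filter_eq_empty_iff]
      rintro n hn ⟨b, s, t, hf, _⟩
      have h5 : 0 < Q := Finset.prod_pos fun a _ => hf a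
      have h6 : 0 < Q * X := Nat.mul_pos h5 (by omega)
      omega
    rw [h2, Nat.cast_zero]
    positivity
  have h2 : cn {n | ∃ (b : Fin r → ℕ) (s t : Fin r → Fin N),
      (∀ a, 0 < ∑ j, f a j) ∧ (∀ j, 0 < b j) ∧ Function.Injective s ∧ (∀ j i, f (s j) i = if i = j then 1 else 0) ∧
      Function.Injective t ∧ (∀ i j, s i ≠ t j) ∧ (∀ j, 1 ≤ f (t j) j) ∧
      n * Q = ∏ a, ∑ j, f a j * b j} X ≤
      ((Fintype.piFinset fun _ : Fin r => Finset.Icc 1 (Q * X)).filter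
        fun b => (∏ j, b j) ^ 2 ≤ Q * X).card := by
    unfold cn
    refine Finset.card_le_card_of_forall_subsingleton (fun n b => n * Q = ∏ a, ∑ j, f a j * b j) ?_ ?_
    · intro n hn
      obtain ⟨hn1, b, s, t, hf, hb, hs, hsf, ht, hst, htf, he⟩ := Finset.mem_filter.1 hn
      obtain ⟨h3, h4⟩ := prod_bound2 f b s t hf hb hs hsf ht hst htf
      have h5 : n ≤ X := (Finset.mem_Icc.1 hn1).2
      have h6 : ∏ a, ∑ j, f a j * b j ≤ Q * X := by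
        rw [← he, mul_comm]
        exact Nat.mul_le_mul_left Q h5
      exact ⟨b, Finset.mem_filter.2 ⟨Fintype.mem_piFinset.2 fun j => Finset.mem_Icc.2 ⟨hb j, (h4 j).trans h6⟩,
        h3.trans h6⟩, he⟩
    · rintro b _ n ⟨_, hn⟩ m ⟨_, hm⟩
      have h3 : 0 < Q := Nat.pos_of_mul_pos_right hZ |> fun h => h
      exact Nat.eq_of_mul_eq_mul_right h3 (hn.trans hm.symm)
  have h3 := box_card2 r (Q * X) hZ
  have hZ1 : (1 : ℝ) ≤ ((Q * X : ℕ) : ℝ) := by exact_mod_cast hZ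
  have h4 := hC _ hZ1
  have hZ0 : (0 : ℝ) < ((Q * X : ℕ) : ℝ) := by linarith
  calc (cn {n | ∃ (b : Fin r → ℕ) (s t : Fin r → Fin N),
      (∀ a, 0 < ∑ j, f a j) ∧ (∀ j, 0 < b j) ∧ Function.Injective s ∧ (∀ j i, f (s j) i = if i = j then 1 else 0) ∧
      Function.Injective t ∧ (∀ i j, s i ≠ t j) ∧ (∀ j, 1 ≤ f (t j) j) ∧
      n * Q = ∏ a, ∑ j, f a j * b j} X : ℝ) ≤
      (((Fintype.piFinset fun _ : Fin r => Finset.Icc 1 (Q * X)).filter
        fun b => (∏ j, b j) ^ 2 ≤ Q * X).card : ℝ) := by exact_mod_cast h2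
    _ ≤ ((Q * X : ℕ) : ℝ) ^ (1 / 2 : ℝ) * (1 + Real.log ((Q * X : ℕ) : ℝ)) ^ r := h3
    _ ≤ ((Q * X : ℕ) : ℝ) ^ (1 / 2 : ℝ) * (C * ((Q * X : ℕ) : ℝ) ^ ε) := by gcongr
    _ = C * ((Q * X : ℕ) : ℝ) ^ (1 / 2 + ε) := by
        rw [Real.rpow_add hZ0]
        ring
    _ = C * (Q : ℝ) ^ (1 / 2 + ε) * (X : ℝ) ^ (1 / 2 + ε) := by
        push_cast
        rw [Real.mul_rpow (Nat.cast_nonneg Q) (Nat.cast_nonneg X)]
        ring

/-- Block PX-T. -/
theorem dt2_thin (M : ℕ) {ε : ℝ} (hε : 0 < ε) : Thin {n | Dt2 M n} (1 / 2 + ε) := by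
  classical
  refine Thin.mono3 (thin_iUnion3 (ι := Σ (r : Fin (M + 1)) (N : Fin (M + 1)), (Fin N → Fin r → Fin (4 * M + 1)))
    (fun u => {n | ∃ (b : Fin u.1 → ℕ) (s t : Fin u.1 → Fin u.2.1),
      (∀ a, 0 < ∑ j, (u.2.2 a j : ℕ)) ∧ (∀ j, 0 < b j) ∧ Function.Injective s ∧
      (∀ j i, (u.2.2 (s j) i : ℕ) = if i = j then 1 else 0) ∧
      Function.Injective t ∧ (∀ i j, s i ≠ t j) ∧ (∀ j, 1 ≤ (u.2.2 (t j) j : ℕ)) ∧
      n * ∏ a, ∑ j, (u.2.2 a j : ℕ) = ∏ a, ∑ j, (u.2.2 a j : ℕ) * b j})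
    fun u => thin_one (fun a j => (u.2.2 a j : ℕ)) hε) ?_
  rintro n ⟨r, N, f, b, s, t, h2r, hrM, hNM, hf4, hf, hb, hs, hsf, ht, hst, htf, he⟩
  refine Set.mem_iUnion.2 ⟨⟨⟨r, by omega⟩, ⟨N, by omega⟩, fun a j => ⟨f a j, by
    have := hf4 a j
    omega⟩⟩, ?_⟩
  exact ⟨b, s, t, hf, hb, hs, hsf, ht, hst, htf, he⟩

end PW
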